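import Pool.Agent.L5helper66.TD.FamG
import Pool.Agent.L5helper49.NKRel
import Pool.Agent.L5helper99.NKexists

/-!
# Cube-dissectable tetrahedra parametrized by an elliptic curve

Definitions (`Pool.Agent.L5helper66.TD.Defs`, `Pool.Agent.L5helper66.TD.Defs2`): `E3`, `orth`,
`dihedral`, `Ang`, `ang`, `term`, `dehn`, `HasEdges`.

Let `1 < x < 4 / 3` and let `y`, `z` be the positive numbers with `z ^ 2 = 9 - 2 x - 3 x ^ 2` and
`2 y ^ 2 = 3 (3 - x - z)`.  The tetrahedron with the edges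

  `01 = 1 + x + y`, `02 = 3 - x + y`, `03 = 2 x`, `12 = 2 y`, `13 = 4 - y - z`, `23 = z - y`

exists, and its Dehn invariant is zero, so that it is scissors-congruent to a cube (Sydler).

Proof.  The Cayley-Menger determinant is `(32 / 3) (y (3 - 2 x - 3 x ^ 2 + z (1 + 3 x))) ^ 2`, so
that modulo `π` all dihedral angles are arguments of elements of `ℚ(x, y, z)(√-3)`.  They satisfy
`θ13 = θ23`, `θ01 + θ03 + θ12 - θ13 = π / 3`, `θ02 - θ03 + θ12 - θ13 = π / 3` and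
`4 θ13 + θ03 - 2 θ12 = 4 π / 3` modulo `π`.
-/

namespace Pool.Agent.Results.MP_6c15a0_gt.EllipticFamily

open Pool.Agent.L5helper66.TD

theorem result (x : ℝ) (hx : 1 < x) (hx2 : x < 4 / 3) :
    ∃ y z : ℝ, 0 < y ∧ 0 < z ∧ z ^ 2 = 9 - 2 * x - 3 * x ^ 2 ∧ 2 * y ^ 2 = 3 * (3 - x - z) ∧
      -- (1) the tetrahedron exists
      (∃ T : Fin 4 → E3, AffineIndependent ℝ T ∧
        HasEdges T (1 + x + y) (3 - x + y) (2 * x) (2 * y) (4 - y - z) (z - y)) ∧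
      -- (2) its Dehn invariant is zero
      (∀ T : Fin 4 → E3,
        HasEdges T (1 + x + y) (3 - x + y) (2 * x) (2 * y) (4 - y - z) (z - y) → dehn T = 0) := by
  have h1 : 0 < 9 - 2 * x - 3 * x ^ 2 := by nlinarith
  obtain ⟨z, hz⟩ : ∃ z, z = √(9 - 2 * x - 3 * x ^ 2) := ⟨_, rfl⟩
  have hz0 : 0 < z := by
    rw [hz]
    exact Real.sqrt_pos.2 h1
  have hzz : z ^ 2 = 9 - 2 * x - 3 * x ^ 2 := by
    rw [hz]
    exact Real.sq_sqrt h1.le
  have h2 : 0 < 3 * (3 - x - z) / 2 := by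
    have : z < 3 - x := by
      refine lt_of_pow_lt_pow_left₀ 2 (by linarith) ?_
      nlinarith
    linarith
  obtain ⟨y, hy⟩ : ∃ y, y = √(3 * (3 - x - z) / 2) := ⟨_, rfl⟩
  have hy0 : 0 < y := by
    rw [hy]
    exact Real.sqrt_pos.2 h2
  have hyy : 2 * y ^ 2 = 3 * (3 - x - z) := by
    rw [hy, Real.sq_sqrt h2.le]
    ring
  obtain ⟨hW, g1, g2, g3, g4⟩ :=
    Pool.Agent.L5helper49.NK.G_pos x y z hx hx2 hy0 hz0 hzz hyy
  refine ⟨y, z, hy0, hz0, hzz, hyy, ?_, fun T h =>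
    G_dehn x y z hx hy0 g3 g1 g2 hzz hyy hW (by linarith) T h⟩
  refine Pool.Agent.L5helper99.NK.G_exists x y z hx hx2 hy0 hz0 hzz hyy ?_ ⟨g1, g2, g3, g4⟩
  rw [Pool.Agent.L5helper49.NK.G_cm x y z hzz hyy]
  positivity

end Pool.Agent.Results.MP_6c15a0_gt.EllipticFamily
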