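import Pool.Agent.L5helper12.NF.Dehn
import Pool.Agent.L5helper63.NF.Exist
import Pool.Agent.L5helper83.NFIrr
import Pool.Agent.L5helper97.NFTerm
import Pool.Agent.L5helper3.NFExists

/-!
# A continuous family of cube-dissectable tetrahedra without rational dihedral angles

Definitions (`Pool.Agent.L5helper66.TD.Defs`, `Pool.Agent.L5helper66.TD.Defs2`): `E3`, `orth`,
`dihedral`, `Ang`, `ang`, `term`, `dehn`, `HasEdges`.

For every real number `w > 4` the tetrahedron with the edges

  `01 = w + 1`, `02 = w + 1`, `03 = w`, `12 = 6`, `13 = w - 1`, `23 = w - 1`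

exists, and its Dehn invariant is zero, so that it is scissors-congruent to a cube (Sydler).  If `w`
is transcendental, no dihedral angle of it is a rational multiple of `π`.

Proof.  The Cayley-Menger determinant is `216 w ^ 2 (w ^ 2 - 16)`, so that modulo `π` all dihedral
angles are arguments of elements of `ℚ(w) + ℚ(w) √(-3 (w ^ 2 - 16))`, and two multiplicative
relations between these elements (one for `w ⊗` and one for `1 ⊗`) give the vanishing.
-/

namespace Pool.Agent.Results.MP_6c15a0_gt.LinearFamily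

open Pool.Agent.L5helper66.TD

theorem result (w : ℝ) (hw : 4 < w) :
    -- (1) the tetrahedron exists
    (∃ T : Fin 4 → E3, AffineIndependent ℝ T ∧
      HasEdges T (w + 1) (w + 1) w 6 (w - 1) (w - 1)) ∧
    -- (2) its Dehn invariant is zero
    (∀ T : Fin 4 → E3, HasEdges T (w + 1) (w + 1) w 6 (w - 1) (w - 1) → dehn T = 0) ∧
    -- (3) if `w` is transcendental, no dihedral angle is a rational multiple of `π`
    (Transcendental ℚ w → ∀ T : Fin 4 → E3, AffineIndependent ℝ T →
      HasEdges T (w + 1) (w + 1) w 6 (w - 1) (w - 1) →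
      ∀ i j k l : Fin 4, i ≠ j → k ≠ i ∧ k ≠ j → l ≠ i ∧ l ≠ j ∧ l ≠ k →
      ∀ r : ℚ, dihedral (T i) (T j) (T k) (T l) ≠ r * Real.pi) :=
  ⟨Pool.Agent.L5helper63.NF.L_exists
      (fun a b c d e f ha hb hc hd he hf h2 h3 =>
        Pool.Agent.L5helper3.NF.exists_tetra a b c d e f ha hb hc hd he hf h2 h3) w hw,
    fun T h => Pool.Agent.L5helper12.NF.L_dehn_of
      (fun P Q R S a b c d e f h1 h2 h3 h4 h5 h6 h7 =>
        Pool.Agent.L5helper97.NF.term_dist P Q R S a b c d e f h1 h2 h3 h4 h5 h6 h7) w hw T h,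
    fun ht T hT h i j k l hi hk hl r =>
      Pool.Agent.L5helper83.NF.L_irr w hw ht T hT h i j k l hi hk hl r⟩

end Pool.Agent.Results.MP_6c15a0_gt.LinearFamily
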