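import Pool.Agent.L5helper66.TD.FamC
import Pool.Agent.L5helper97.NGExists
import Pool.Agent.L5helper5.NGIrr

/-!
# A continuous family of cube-dissectable tetrahedra whose edges are quadratic polynomials

Definitions (`Pool.Agent.L5helper66.TD.Defs`, `Pool.Agent.L5helper66.TD.Defs2`): `E3`, `orth`,
`dihedral`, `Ang`, `ang`, `term`, `dehn`, `HasEdges`.

Let `m` be real, `m < -5`, `m ≠ -9` or `-1 < m < 3`, `m ≠ 0`.  The tetrahedron with the edges

  `01 = |4 m² + 36 m|`, `02 = |3 m² + 14 m + 27|`, `03 = |-m² + 18 m + 27|`,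
  `12 = |-m² + 10 m + 27|`, `13 = |3 m² + 6 m + 27|`, `23 = |-2 m² + 8 m + 18|`

exists, and its Dehn invariant is zero, so that it is scissors-congruent to a cube (Sydler).  If `m`
is transcendental, no dihedral angle of it is a rational multiple of `π`.

Proof.  The Cayley-Menger determinant is `55296 (m (m + 1) (m + 9) (m - 3))² (m + 5) (5 m + 9)`, so
that modulo `π` all dihedral angles are arguments of elements of `ℚ(m) + ℚ(m) √(-3 (m + 5)(5 m + 9))`,
and the multiplicative relations between these elements give the vanishing.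
-/

namespace Pool.Agent.Results.MP_6c15a0_gt.QuadraticFamily

open Pool.Agent.L5helper66.TD

theorem result :
    -- (1) existence
    (∀ m : ℝ, (m < -5 ∧ m ≠ -9) ∨ (-1 < m ∧ m < 3 ∧ m ≠ 0) →
      ∃ T : Fin 4 → E3, AffineIndependent ℝ T ∧
        HasEdges T |4 * m ^ 2 + 36 * m| |3 * m ^ 2 + 14 * m + 27| |-m ^ 2 + 18 * m + 27|
          |-m ^ 2 + 10 * m + 27| |3 * m ^ 2 + 6 * m + 27| |-2 * m ^ 2 + 8 * m + 18|) ∧
    -- (2) the Dehn invariant is zero
    (∀ m : ℝ, ∀ T : Fin 4 → E3, AffineIndependent ℝ T →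
      HasEdges T |4 * m ^ 2 + 36 * m| |3 * m ^ 2 + 14 * m + 27| |-m ^ 2 + 18 * m + 27|
          |-m ^ 2 + 10 * m + 27| |3 * m ^ 2 + 6 * m + 27| |-2 * m ^ 2 + 8 * m + 18| →
      dehn T = 0) ∧
    -- (3) if `m` is transcendental, no dihedral angle is a rational multiple of `π`
    (∀ m : ℝ, Transcendental ℚ m → ∀ T : Fin 4 → E3, AffineIndependent ℝ T →
      HasEdges T |4 * m ^ 2 + 36 * m| |3 * m ^ 2 + 14 * m + 27| |-m ^ 2 + 18 * m + 27|
          |-m ^ 2 + 10 * m + 27| |3 * m ^ 2 + 6 * m + 27| |-2 * m ^ 2 + 8 * m + 18| →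
      ∀ i j k l : Fin 4, i ≠ j → k ≠ i ∧ k ≠ j → l ≠ i ∧ l ≠ j ∧ l ≠ k →
      ∀ r : ℚ, dihedral (T i) (T j) (T k) (T l) ≠ r * Real.pi) :=
  ⟨fun m hm => Pool.Agent.L5helper97.NG.C_exists_all m hm, fun m T hT h => C_dehn m T hT h,
    fun m ht T hT h i j k l hi hk hl r =>
      Pool.Agent.L5helper5.NG.C_irr m ht T hT h i j k l hi hk hl r⟩

end Pool.Agent.Results.MP_6c15a0_gt.QuadraticFamily
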