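import Pool.Agent.L5helper66.TD.Final

/-!
# Cube-dissectable tetrahedra with a symmetry of order at least 3

Definitions (`Pool.Agent.L5helper66.TD.Defs`): `E3`, `orth`, `dihedral`, `Ang`, `ang`, `term`, `dehn`,
`IsPyramid`, `IsDisphenoid`.

By the theorems of Dehn and Sydler a tetrahedron is scissors-congruent to a cube if and only if its Dehn
invariant, the sum of `length ⊗ dihedral angle` over the six edges in `ℝ ⊗ (ℝ / π ℤ)`, is zero.  Here
the tetrahedra with this property are determined in two one-parameter families, which together consist
of all tetrahedra that have a symmetry of order at least `3` (that is, a symmetry whose square is not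
the identity on the vertices): the regular triangular pyramids (none) and the tetragonal disphenoids
(only the one whose edges are in the ratio `2 : √3`).

Proof.  If the two lengths `a`, `b` are incommensurable, both dihedral angles are rational multiples of
`π`, and `4 cos β + 3 cos 2 α + 1 = 0` or `cos α + 2 cos β = 1`; divisibility by `3` or `2` in the ring
of algebraic integers and Kronecker's theorem leave `α = π / 2`, `β = π / 3` for the disphenoids and
nothing for the pyramids.  If `b / a = p / q`, the angles are arguments of elements of the imaginary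
quadratic field `ℚ(√(q² - 3 p²))` or `ℚ(√(2 q² - 4 p²))`; the primes which divide `4 p² - q²` show that
`4 p² - q²` is a power of `2`, and the few remaining pairs `(p, q)` are treated one by one.
-/

namespace Pool.Agent.Results.MP_6c15a0_gt.ThreefoldSymmetry

open Pool.Agent.L5helper66.TD

theorem result :
    -- (1) tetrahedra with a symmetry of order at least 3
    (∀ T : Fin 4 → E3, AffineIndependent ℝ T → ∀ f : E3 → E3, Isometry f →
      ∀ σ : Equiv.Perm (Fin 4), (∀ i, f (T i) = T (σ i)) → σ * σ ≠ 1 →
      (dehn T = 0 ↔ ∃ (τ : Equiv.Perm (Fin 4)) (c : ℝ), IsDisphenoid (T ∘ τ) (2 * c) (√3 * c))) ∧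
    -- (2) regular triangular pyramids
    (∀ T : Fin 4 → E3, AffineIndependent ℝ T → ∀ a b : ℝ, IsPyramid T a b → dehn T ≠ 0) ∧
    -- (3) tetragonal disphenoids
    (∀ T : Fin 4 → E3, AffineIndependent ℝ T → ∀ a b : ℝ, IsDisphenoid T a b →
      (dehn T = 0 ↔ 3 * a ^ 2 = 4 * b ^ 2)) :=
  ⟨fun T hT f hf σ h h2 => sym_iff T hT f hf σ h h2, fun T hT a b h => pyr_ne T hT a b h,
    fun T hT a b h => dis_iff T hT a b h⟩

end Pool.Agent.Results.MP_6c15a0_gt.ThreefoldSymmetry
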